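import Mathlib

/-!
Local resolving sets by adjacency: basic notions and the bound by the clique number.
-/

set_option autoImplicit false

namespace Q32.LMD

open Finset Classical

variable {V : Type*}

/-- `w` is adjacent to exactly one of `u` and `v`. -/
def Sep (G : SimpleGraph V) (w u v : V) : Prop :=
  (G.Adj w u ∧ ¬ G.Adj w v) ∨ (¬ G.Adj w u ∧ G.Adj w v)

lemma Sep.symm {G : SimpleGraph V} {w u v : V} (h : Sep G w u v) : Sep G w v u := by
  rcases h with h | h
  · exact Or.inr ⟨h.2, h.1⟩
  · exact Or.inl ⟨h.2, h.1⟩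

/-- Adjacent vertices of `X` are separated by a vertex of `D` or of `U \ X`. -/
def Good (G : SimpleGraph V) (D U X : Finset V) : Prop :=
  X ⊆ U ∧ ∀ u ∈ X, ∀ v ∈ X, G.Adj u v → ∃ w, (w ∈ D ∨ (w ∈ U ∧ w ∉ X)) ∧ Sep G w u v

/-- no clique with `k` vertices inside `U` -/
def NoClique (G : SimpleGraph V) (k : ℕ) (U : Finset V) : Prop :=
  ∀ S, S ⊆ U → ¬ G.IsNClique k S

/-- `U` induces a connected graph (no nonempty proper closed subset). -/
def Conn (G : SimpleGraph V) (U : Finset V) : Prop :=
  U.Nonempty ∧ ∀ S, S ⊆ U → S.Nonempty → (∀ x ∈ S, ∀ y ∈ U, y ∉ S → ¬ G.Adj x y) → S = U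

variable {G : SimpleGraph V}

lemma NoClique.mono {k : ℕ} {U U' : Finset V} (h : NoClique G k U) (hs : U' ⊆ U) :
    NoClique G k U' := fun S hS => h S (hS.trans hs)

lemma noClique_nbr {k : ℕ} {U N : Finset V} {v : V} (h : NoClique G (k + 1) U) (hv : v ∈ U)
    (hN : N ⊆ U) (hadj : ∀ x ∈ N, G.Adj v x) : NoClique G k N := by
  intro S hS hcl
  refine h (insert v S) ?_ ?_
  · intro x hx
    rcases Finset.mem_insert.1 hx with rfl | hx
    · exact hv
    · exact hN (hS hx)
  · exact hcl.insert (fun b hb => hadj b (hS hb))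

lemma Good.mono {D D' U X : Finset V} (h : Good G D U X) (hD : D ⊆ D') : Good G D' U X := by
  refine ⟨h.1, fun u hu v hv huv => ?_⟩
  obtain ⟨w, hw, hs⟩ := h.2 u hu v hv huv
  exact ⟨w, hw.imp (fun hw => hD hw) id, hs⟩

lemma Good.union {D P Q X Y : Finset V} (hP : Good G D P X) (hQ : Good G D Q Y)
    (hd : Disjoint P Q)
    (hc : ∀ p ∈ P, ∀ q ∈ Q, G.Adj p q → ∃ d ∈ D, Sep G d p q) :
    Good G D (P ∪ Q) (X ∪ Y) := by
  refine ⟨Finset.union_subset_union hP.1 hQ.1, ?_⟩
  intro u hu v hv huv
  rcases Finset.mem_union.1 hu with hu | hu <;> rcases Finset.mem_union.1 hv with hv | hv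
  · obtain ⟨w, hw, hs⟩ := hP.2 u hu v hv huv
    refine ⟨w, ?_, hs⟩
    rcases hw with hw | ⟨hw, hw'⟩
    · exact Or.inl hw
    · refine Or.inr ⟨Finset.mem_union_left _ hw, ?_⟩
      rw [Finset.mem_union]
      rintro (h | h)
      · exact hw' h
      · exact Finset.disjoint_left.1 hd hw (hQ.1 h)
  · obtain ⟨d, hd', hs⟩ := hc u (hP.1 hu) v (hQ.1 hv) huv
    exact ⟨d, Or.inl hd', hs⟩
  · obtain ⟨d, hd', hs⟩ := hc v (hP.1 hv) u (hQ.1 hu) huv.symm
    exact ⟨d, Or.inl hd', hs.symm⟩
  · obtain ⟨w, hw, hs⟩ := hQ.2 u hu v hv huv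
    refine ⟨w, ?_, hs⟩
    rcases hw with hw | ⟨hw, hw'⟩
    · exact Or.inl hw
    · refine Or.inr ⟨Finset.mem_union_right _ hw, ?_⟩
      rw [Finset.mem_union]
      rintro (h | h)
      · exact Finset.disjoint_left.1 hd (hP.1 h) hw
      · exact hw' h

lemma Good.absorb {D U X : Finset V} (h : Good G D U X) (hd : Disjoint D U) :
    Good G ∅ (D ∪ U) X := by
  refine ⟨h.1.trans Finset.subset_union_right, fun u hu v hv huv => ?_⟩
  obtain ⟨w, hw, hs⟩ := h.2 u hu v hv huv
  refine ⟨w, Or.inr ?_, hs⟩
  rcases hw with hw | ⟨hw, hw'⟩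
  · exact ⟨Finset.mem_union_left _ hw, fun hx => Finset.disjoint_left.1 hd hw (h.1 hx)⟩
  · exact ⟨Finset.mem_union_right _ hw, hw'⟩

lemma good_empty (D : Finset V) : Good G D ∅ ∅ :=
  ⟨subset_rfl, fun u hu => by simp at hu⟩

lemma good_singleton {D U : Finset V} {v : V} (hv : v ∈ U) : Good G D U {v} := by
  refine ⟨by simpa using hv, ?_⟩
  intro u hu w hw huw
  simp only [Finset.mem_singleton] at hu hw
  subst hu; subst hw
  exact absurd huw (G.irrefl)

lemma good_pair {D U : Finset V} {a b : V} (ha : a ∈ U) (hb : b ∈ U)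
    (h : G.Adj a b → ∃ d ∈ D, Sep G d a b) : Good G D U {a, b} := by
  refine ⟨by intro x hx; simp only [Finset.mem_insert, Finset.mem_singleton] at hx; rcases hx with rfl | rfl <;> assumption, ?_⟩
  intro u hu w hw huw
  simp only [Finset.mem_insert, Finset.mem_singleton] at hu hw
  rcases hu with rfl | rfl <;> rcases hw with rfl | rfl
  · exact absurd huw (G.irrefl)
  · obtain ⟨d, hd, hs⟩ := h huw
    exact ⟨d, Or.inl hd, hs⟩
  · obtain ⟨d, hd, hs⟩ := h huw.symm
    exact ⟨d, Or.inl hd, hs.symm⟩
  · exact absurd huw (G.irrefl)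

/-- splitting `U` at a vertex `v` -/
lemma split_vertex {U : Finset V} {v : V} (hv : v ∈ U) :
    U = {v} ∪ (U.filter (fun x => G.Adj v x) ∪ U.filter (fun x => ¬ G.Adj v x ∧ x ≠ v)) ∧
    U.card = 1 + ((U.filter (fun x => G.Adj v x)).card +
      (U.filter (fun x => ¬ G.Adj v x ∧ x ≠ v)).card) ∧
    Disjoint (U.filter (fun x => G.Adj v x)) (U.filter (fun x => ¬ G.Adj v x ∧ x ≠ v)) ∧
    Disjoint ({v} : Finset V)
      (U.filter (fun x => G.Adj v x) ∪ U.filter (fun x => ¬ G.Adj v x ∧ x ≠ v)) := by
  have h1 : U = {v} ∪ (U.filter (fun x => G.Adj v x) ∪ U.filter (fun x => ¬ G.Adj v x ∧ x ≠ v)) := by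
    ext x
    simp only [Finset.mem_union, Finset.mem_singleton, Finset.mem_filter]
    constructor
    · intro hx
      by_cases h : x = v
      · exact Or.inl h
      · by_cases h' : G.Adj v x
        · exact Or.inr (Or.inl ⟨hx, h'⟩)
        · exact Or.inr (Or.inr ⟨hx, h', h⟩)
    · rintro (rfl | h | h)
      · exact hv
      · exact h.1
      · exact h.1
  have h2 : Disjoint (U.filter (fun x => G.Adj v x)) (U.filter (fun x => ¬ G.Adj v x ∧ x ≠ v)) := by
    rw [Finset.disjoint_left]
    intro x hx hx'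
    simp only [Finset.mem_filter] at hx hx'
    exact hx'.2.1 hx.2
  have h3 : Disjoint ({v} : Finset V)
      (U.filter (fun x => G.Adj v x) ∪ U.filter (fun x => ¬ G.Adj v x ∧ x ≠ v)) := by
    rw [Finset.disjoint_left]
    intro x hx hx'
    simp only [Finset.mem_singleton] at hx
    subst hx
    simp at hx'
  refine ⟨h1, ?_, h2, h3⟩
  conv_lhs => rw [h1]
  rw [Finset.card_union_of_disjoint h3, Finset.card_union_of_disjoint h2, Finset.card_singleton]

/-- combine good sets in the neighbourhood and the non-neighbourhood of `v` -/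
lemma good_of_split {U X1 X2 : Finset V} {v : V} (hv : v ∈ U)
    (h1 : Good G ∅ (U.filter (fun x => G.Adj v x)) X1)
    (h2 : Good G ∅ (U.filter (fun x => ¬ G.Adj v x ∧ x ≠ v)) X2) :
    Good G ∅ U (X1 ∪ X2) ∧ (X1 ∪ X2).card = X1.card + X2.card := by
  obtain ⟨e1, -, d1, d2⟩ := split_vertex (G := G) hv
  have hg : Good G {v} (U.filter (fun x => G.Adj v x) ∪ U.filter (fun x => ¬ G.Adj v x ∧ x ≠ v))
      (X1 ∪ X2) := by
    refine (h1.mono (by simp)).union (h2.mono (by simp)) d1 ?_
    intro p hp q hq _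
    simp only [Finset.mem_filter] at hp hq
    exact ⟨v, by simp, Or.inl ⟨hp.2, hq.2.1⟩⟩
  refine ⟨?_, ?_⟩
  · have := hg.absorb d2
    rwa [← e1] at this
  · exact Finset.card_union_of_disjoint (Finset.disjoint_of_subset_left h1.1
      (Finset.disjoint_of_subset_right h2.1 d1))

/-- every graph without cliques of size `r + 1` has a good set with at least `n / r` vertices -/
theorem star (n : ℕ) : ∀ (r : ℕ) (U : Finset V), U.card = n → NoClique G (r + 1) U →
    ∃ X, Good G ∅ U X ∧ U.card ≤ r * X.card := by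
  induction n using Nat.strong_induction_on with
  | _ n ih =>
    intro r U hn hU
    rcases U.eq_empty_or_nonempty with rfl | ⟨v, hv⟩
    · exact ⟨∅, good_empty _, by simp⟩
    · obtain ⟨r', rfl⟩ : ∃ r', r = r' + 1 := by
        cases r with
        | zero =>
          exact absurd (show G.IsNClique (0 + 1) {v} by simp)
            (hU {v} (by simpa using hv))
        | succ r' => exact ⟨r', rfl⟩
      obtain ⟨-, hc, -, -⟩ := split_vertex (G := G) hv
      obtain ⟨X2, g2, c2⟩ := ih (U.filter (fun x => ¬ G.Adj v x ∧ x ≠ v)).card (by omega)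
        (r' + 1) _ rfl (hU.mono (Finset.filter_subset _ _))
      rcases (U.filter (fun x => G.Adj v x)).eq_empty_or_nonempty with hN | hN
      · -- `v` is isolated
        have hiso : ∀ x ∈ U, ¬ G.Adj v x := by
          intro x hx hvx
          have : x ∈ U.filter (fun x => G.Adj v x) := by simp [hx, hvx]
          rw [hN] at this
          simp at this
        have hvX : v ∉ X2 := fun h => by
          have := g2.1 h
          simp at this
        refine ⟨insert v X2, ⟨?_, ?_⟩, ?_⟩
        · intro x hx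
          rcases Finset.mem_insert.1 hx with rfl | hx
          · exact hv
          · exact (Finset.mem_filter.1 (g2.1 hx)).1
        · intro a ha0 b hb0 hab
          rcases Finset.mem_insert.1 ha0 with h1 | ha
          · subst h1
            rcases Finset.mem_insert.1 hb0 with h2 | hb
            · subst h2
              exact absurd hab G.irrefl
            · exact absurd hab (hiso b (Finset.mem_filter.1 (g2.1 hb)).1)
          · rcases Finset.mem_insert.1 hb0 with h2 | hb
            · rw [h2] at hab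
              exact absurd hab.symm (hiso a (Finset.mem_filter.1 (g2.1 ha)).1)
            · obtain ⟨w, hw, hs⟩ := g2.2 a ha b hb hab
              refine ⟨w, Or.inr ?_, hs⟩
              rcases hw with hw | ⟨hw, hw'⟩
              · simp at hw
              · rw [Finset.mem_filter] at hw
                refine ⟨hw.1, ?_⟩
                rw [Finset.mem_insert]
                rintro (h | h)
                · exact hw.2.2 h
                · exact hw' h
        · rw [Finset.card_insert_of_notMem hvX]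
          rw [hN] at hc
          simp only [Finset.card_empty] at hc
          nlinarith
      · obtain ⟨X1, g1, c1⟩ := ih (U.filter (fun x => G.Adj v x)).card (by omega) r' _ rfl
          (noClique_nbr hU hv (Finset.filter_subset _ _)
            (fun x hx => (Finset.mem_filter.1 hx).2))
        obtain ⟨g, c⟩ := good_of_split hv g1 g2
        refine ⟨_, g, ?_⟩
        rw [c]
        have hX1 : 0 < X1.card := by
          rcases Nat.eq_zero_or_pos X1.card with h | h
          · rw [h] at c1
            have := Finset.card_pos.2 hN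
            omega
          · exact h
        nlinarith

/-- if all neighbourhoods inside a connected set are cliques then the set is a clique -/
lemma clique_of_conn {U : Finset V} (hc : Conn G U)
    (h : ∀ v ∈ U, ∀ a ∈ U, ∀ b ∈ U, G.Adj v a → G.Adj v b → a ≠ b → G.Adj a b) :
    G.IsNClique U.card U := by
  refine ⟨?_, rfl⟩
  intro u hu w hw huw
  have hS : insert u (U.filter (fun x => G.Adj u x)) = U := by
    apply hc.2
    · intro x hx
      rcases Finset.mem_insert.1 hx with rfl | hx
      · exact hu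
      · exact (Finset.mem_filter.1 hx).1
    · exact ⟨u, by simp⟩
    · intro x hx y hy hyS hxy
      simp only [Finset.mem_insert, Finset.mem_filter, not_or, not_and] at hyS
      rcases Finset.mem_insert.1 hx with rfl | hx
      · exact hyS.2 hy hxy
      · rw [Finset.mem_filter] at hx
        exact hyS.2 hy (h x hx.1 u hu y hy hx.2.symm hxy (Ne.symm hyS.1))
  have : w ∈ insert u (U.filter (fun x => G.Adj u x)) := by rw [hS]; exact hw
  rcases Finset.mem_insert.1 this with h1 | h1
  · exact absurd h1.symm huw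
  · exact (Finset.mem_filter.1 h1).2

lemma card_le_of_noClique {U : Finset V} {k : ℕ} (hc : G.IsNClique U.card U)
    (h : NoClique G (k + 1) U) : U.card ≤ k := by
  by_contra hlt
  push Not at hlt
  obtain ⟨S, hS, hS'⟩ := Finset.exists_subset_card_eq (n := k + 1) (s := U) (by omega)
  refine h S hS ⟨?_, hS'⟩
  exact hc.1.subset (by exact_mod_cast hS)

/-- strict form of `star` for connected sets which are not cliques of size `r` -/
theorem star_strict {r : ℕ} {U : Finset V} (hc : Conn G U) (hU : NoClique G (r + 1) U)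
    (hne : ¬ G.IsNClique r U) : ∃ X, Good G ∅ U X ∧ U.card + 1 ≤ r * X.card := by
  by_cases h : ∀ v ∈ U, ∀ a ∈ U, ∀ b ∈ U, G.Adj v a → G.Adj v b → a ≠ b → G.Adj a b
  · have hcl := clique_of_conn hc h
    have hle := card_le_of_noClique hcl hU
    have hne' : U.card ≠ r := fun e => hne (e ▸ hcl)
    obtain ⟨v, hv⟩ := hc.1
    refine ⟨{v}, good_singleton hv, ?_⟩
    rw [Finset.card_singleton]
    omega
  · push Not at h
    obtain ⟨v, hv, a, ha, b, hb, hva, hvb, hab, hnab⟩ := h
    obtain ⟨r', rfl⟩ : ∃ r', r = r' + 1 := by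
      cases r with
      | zero =>
        exact absurd (show G.IsNClique (0 + 1) {v} by simp)
          (hU {v} (by simpa using hv))
      | succ r' => exact ⟨r', rfl⟩
    obtain ⟨-, hcard, -, -⟩ := split_vertex (G := G) hv
    obtain ⟨X2, g2, c2⟩ := star _ (r' + 1) (U.filter (fun x => ¬ G.Adj v x ∧ x ≠ v)) rfl
      (hU.mono (Finset.filter_subset _ _))
    obtain ⟨X1, g1, c1⟩ := star _ r' (U.filter (fun x => G.Adj v x)) rfl
      (noClique_nbr hU hv (Finset.filter_subset _ _)
        (fun x hx => (Finset.mem_filter.1 hx).2))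
    have key : ∃ X1, Good G ∅ (U.filter (fun x => G.Adj v x)) X1 ∧
        (U.filter (fun x => G.Adj v x)).card ≤ r' * X1.card ∧ 2 ≤ X1.card := by
      by_cases h2 : 2 ≤ X1.card
      · exact ⟨X1, g1, c1, h2⟩
      · refine ⟨{a, b}, good_pair (by simp [ha, hva]) (by simp [hb, hvb])
          (fun h => absurd h hnab), ?_, ?_⟩
        · rw [Finset.card_pair hab]
          have : X1.card ≤ 1 := by omega
          nlinarith
        · rw [Finset.card_pair hab]
    obtain ⟨X1, g1, c1, h2⟩ := key
    obtain ⟨g, c⟩ := good_of_split hv g1 g2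
    refine ⟨_, g, ?_⟩
    rw [c]
    nlinarith

/-- components -/
lemma exists_comp {U : Finset V} {x : V} (hx : x ∈ U) :
    ∃ M, M ⊆ U ∧ x ∈ M ∧ (∀ a ∈ M, ∀ b ∈ U, b ∉ M → ¬ G.Adj a b) ∧ Conn G M := by
  have hex : ∃ n, ∃ M, M ⊆ U ∧ x ∈ M ∧ (∀ a ∈ M, ∀ b ∈ U, b ∉ M → ¬ G.Adj a b) ∧ M.card = n :=
    ⟨U.card, U, subset_rfl, hx, fun a _ b hb hb' => absurd hb hb', rfl⟩
  obtain ⟨M, hMU, hxM, hcl, hcard⟩ := Nat.find_spec hex
  refine ⟨M, hMU, hxM, hcl, ⟨x, hxM⟩, ?_⟩
  intro S hS hSne hScl
  by_contra hne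
  have hss : S ⊂ M := Finset.ssubset_iff_subset_ne.2 ⟨hS, hne⟩
  by_cases hxS : x ∈ S
  · refine Nat.find_min hex (m := S.card) ?_ ⟨S, hS.trans hMU, hxS, ?_, rfl⟩
    · rw [← hcard]; exact Finset.card_lt_card hss
    · intro a ha b hb hbS
      by_cases hbM : b ∈ M
      · exact hScl a ha b hbM hbS
      · exact hcl a (hS ha) b hb hbM
  · refine Nat.find_min hex (m := (M \ S).card) ?_
      ⟨M \ S, Finset.sdiff_subset.trans hMU, by simp [hxM, hxS], ?_, rfl⟩
    · rw [← hcard]
      apply Finset.card_lt_card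
      rw [Finset.ssubset_iff_subset_ne]
      refine ⟨Finset.sdiff_subset, fun e => ?_⟩
      obtain ⟨s, hs⟩ := hSne
      have : s ∈ M \ S := by rw [e]; exact hS hs
      simp [hs] at this
    · intro a ha b hb hbS
      rw [Finset.mem_sdiff] at ha
      by_cases hbM : b ∈ M
      · have hbS' : b ∈ S := by
          by_contra h
          exact hbS (by simp [hbM, h])
        intro hab
        exact hScl b hbS' a ha.1 ha.2 hab.symm
      · exact hcl a ha.1 b hb hbM

end Q32.LMD
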