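import Pool.Agent.Q32.LMD.Process

/-!
The main bound: connected graphs of clique number at most `k + 1` which are not complete of that
order have a good set with at least `n / k` vertices.
-/

set_option autoImplicit false

namespace Q32.LMD

open Finset Classical

variable {V : Type*} {G : SimpleGraph V}

lemma avoid_of {k : ℕ} {U D T : Finset V}
    (h : ∀ Q, Q ⊆ U → Disjoint Q T → G.IsNClique (k + 1) Q → (∀ q ∈ Q, Undom G D q) →
      ∃ y ∈ U, y ∉ Q ∧ y ∉ T ∧ ∃ q ∈ Q, G.Adj y q) : Avoid G k U D T := h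

/-- an element of a clique of maximal order not adjacent to `y` -/
lemma exists_nonadj {k : ℕ} {U Q : Finset V} (hcl : NoClique G (k + 2) U) (hQU : Q ⊆ U)
    (hQ : G.IsNClique (k + 1) Q) {y : V} (hy : y ∈ U) : ∃ q ∈ Q, ¬ G.Adj y q := by
  by_contra hno
  push Not at hno
  refine hcl (insert y Q) ?_ (hQ.insert hno)
  intro x hx
  rcases Finset.mem_insert.1 hx with h | h
  · rw [h]; exact hy
  · exact hQU h

section

variable {k : ℕ} {U : Finset V} (hk : 2 ≤ k) (hcl : NoClique G (k + 2) U) (hih : IH G k U)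
  (hconn : Conn G U) (hnot : ¬ G.IsNClique (k + 1) U)
  (hH : ¬ ∃ X, Good G ∅ U X ∧ U.card ≤ k * X.card)

include hk hcl hih hH in
lemma value_lt {D T X : Finset V} (hs : State G U D T X) (hD : D.Nonempty)
    (hav : Avoid G k U D T) : k * X.card < D.card + T.card := by
  obtain ⟨Y, gY, cY⟩ := process hk hcl hih _ D T X rfl hs hD hav
  by_contra hge
  push Not at hge
  exact hH ⟨Y, gY, by omega⟩

include hconn hnot in
/-- every clique of order `k + 1` has an outside neighbour -/
lemma exists_nbr (Q : Finset V) (hQU : Q ⊆ U) (hQ : G.IsNClique (k + 1) Q) :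
    ∃ y ∈ U, y ∉ Q ∧ ∃ q ∈ Q, G.Adj y q := by
  by_contra hno
  push Not at hno
  have hne : Q.Nonempty := by
    rw [← Finset.card_pos, hQ.2]; omega
  have := hconn.2 Q hQU hne (fun x hx y hy hyQ hxy => hno y hy hyQ x hx hxy.symm)
  rw [this] at hQ
  exact hnot hQ

include hk hcl hih hconn hnot hH in
/-- Step 1: every clique of order `k + 1` has at least two outside neighbours -/
lemma step1 (Q : Finset V) (hQU : Q ⊆ U) (hQ : G.IsNClique (k + 1) Q) (a : V) :
    ∃ y ∈ U, y ∉ Q ∧ y ≠ a ∧ ∃ q ∈ Q, G.Adj y q := by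
  by_contra hno
  push Not at hno
  obtain ⟨y, hyU, hyQ, q0, hq0, hyq0⟩ := exists_nbr hconn hnot Q hQU hQ
  have hya : y = a := by
    by_contra h
    exact hno y hyU hyQ h q0 hq0 hyq0
  subst hya
  obtain ⟨q1, hq1, hyq1⟩ := exists_nonadj hcl hQU hQ hyU
  have hq01 : q0 ≠ q1 := fun e => hyq1 (e ▸ hyq0)
  have hs : State G U {y} Q {q0, q1} := by
    refine ⟨by simpa using hyU, hQU, by simpa using hyQ,
      good_pair hq0 hq1 (fun _ => ⟨y, by simp, Or.inl ⟨hyq0, hyq1⟩⟩), ?_⟩
    intro t ht x hx hxQ hxy htx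
    exact absurd htx.symm (hno x hx hxQ (by simpa using hxy) t ht)
  have hav : Avoid G k U {y} Q := by
    intro Q' hQ'U hQ'Q hQ'cl hund
    obtain ⟨y', hy'U, hy'Q', q', hq', hyq'⟩ := exists_nbr hconn hnot Q' hQ'U hQ'cl
    refine ⟨y', hy'U, hy'Q', ?_, q', hq', hyq'⟩
    intro hy'Q
    have hq'y : q' ≠ y := by
      have := (hund q' hq').1
      simpa using this
    exact hno q' (hQ'U hq') (Finset.disjoint_left.1 hQ'Q hq') hq'y y' hy'Q hyq'.symm
  have := value_lt hk hcl hih hH hs ⟨y, by simp⟩ hav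
  rw [Finset.card_pair hq01, hQ.2, Finset.card_singleton] at this
  omega

include hk hcl hih hconn hnot hH in
/-- Step 2: every edge is in a triangle -/
lemma step2 {z c : V} (hz : z ∈ U) (hc : c ∈ U) (hzc : G.Adj z c) :
    ∃ x ∈ U, G.Adj z x ∧ G.Adj c x := by
  by_contra hno
  push Not at hno
  have hs : State G U {z} {c} {c} := by
    refine ⟨by simpa using hz, by simpa using hc, by simpa using hzc.ne,
      good_singleton (by simp), ?_⟩
    intro t ht x hx hxc hxz htx
    rw [Finset.mem_singleton] at ht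
    subst ht
    exact ⟨z, by simp, Or.inl ⟨hzc, fun h => hno x hx h htx⟩⟩
  have hav : Avoid G k U {z} {c} := by
    intro Q hQU _ hQcl _
    obtain ⟨y, hy, hyQ, hyc, hq⟩ := step1 hk hcl hih hconn hnot hH Q hQU hQcl c
    exact ⟨y, hy, hyQ, by simpa using hyc, hq⟩
  have := value_lt hk hcl hih hH hs ⟨z, by simp⟩ hav
  simp only [Finset.card_singleton] at this
  omega

include hk hcl hih hconn hnot hH in
/-- Step 3: no clique of order `k + 1` is a component of the non-neighbourhood of a vertex -/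
lemma step3 {z : V} (hz : z ∈ U) (Q : Finset V) (hQU : Q ⊆ U) (hQ : G.IsNClique (k + 1) Q)
    (hund : ∀ q ∈ Q, ¬ G.Adj z q) : ∃ q ∈ Q, ∃ x ∈ U, x ∉ Q ∧ G.Adj q x ∧ ¬ G.Adj z x := by
  by_contra hno
  push Not at hno
  have hzQ : z ∉ Q := by
    intro hzQ
    have : ∃ q ∈ Q, q ≠ z := by
      by_contra h
      push Not at h
      have : Q ⊆ {z} := fun x hx => by simp [h x hx]
      have := Finset.card_le_card this
      rw [hQ.2, Finset.card_singleton] at this
      omega
    obtain ⟨q, hq, hqz⟩ := this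
    exact hund q hq (hQ.1 hzQ hq hqz.symm)
  obtain ⟨a, haU, haQ, q0, hq0, haq0⟩ := exists_nbr hconn hnot Q hQU hQ
  have hza : G.Adj z a := hno q0 hq0 a haU haQ haq0.symm
  obtain ⟨q1, hq1, haq1⟩ := exists_nonadj hcl hQU hQ haU
  have hq01 : q0 ≠ q1 := fun e => haq1 (e ▸ haq0)
  have hDne : ({z, a} : Finset V).Nonempty := ⟨z, by simp⟩
  have hDU : ({z, a} : Finset V) ⊆ U := by
    intro x hx
    simp only [Finset.mem_insert, Finset.mem_singleton] at hx
    rcases hx with rfl | rfl <;> assumption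
  by_cases hk3 : 3 ≤ k
  · have hs : State G U {z, a} Q {q0, q1} := by
      refine ⟨hDU, hQU, ?_, good_pair hq0 hq1
        (fun _ => ⟨a, by simp, Or.inl ⟨haq0, haq1⟩⟩), ?_⟩
      · rw [Finset.disjoint_left]
        intro x hx hxQ
        simp only [Finset.mem_insert, Finset.mem_singleton] at hx
        rcases hx with rfl | rfl
        · exact hzQ hxQ
        · exact haQ hxQ
      · intro t ht x hx hxQ _ htx
        exact ⟨z, by simp, Or.inr ⟨hund t ht, hno t ht x hx hxQ htx⟩⟩
    have hav : Avoid G k U {z, a} Q := by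
      intro Q' hQ'U hQ'Q hQ'cl hund'
      obtain ⟨y, hyU, hyQ', q', hq', hyq'⟩ := exists_nbr hconn hnot Q' hQ'U hQ'cl
      refine ⟨y, hyU, hyQ', ?_, q', hq', hyq'⟩
      intro hyQ
      exact (hund' q' hq').2 z (by simp)
        (hno y hyQ q' (hQ'U hq') (Finset.disjoint_left.1 hQ'Q hq') hyq')
    have := value_lt hk hcl hih hH hs hDne hav
    rw [Finset.card_pair hq01, hQ.2, Finset.card_pair hza.ne] at this
    omega
  · have hk2 : k = 2 := by omega
    subst hk2
    obtain ⟨c, hcU, hzc, hac⟩ := step2 hk hcl hih hconn hnot hH hz haU hza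
    have hcQ : c ∉ Q := fun h => hund c h hzc
    have hXc : c ∉ ({q0, q1} : Finset V) := by
      simp only [Finset.mem_insert, Finset.mem_singleton, not_or]
      exact ⟨fun e => hcQ (e ▸ hq0), fun e => hcQ (e ▸ hq1)⟩
    have hs : State G U {z, a} (Q ∪ {c}) ({q0, q1} ∪ {c}) := by
      refine ⟨hDU, Finset.union_subset hQU (by simpa using hcU), ?_, ?_, ?_⟩
      · rw [Finset.disjoint_left]
        intro x hx hxQ
        simp only [Finset.mem_insert, Finset.mem_singleton] at hx
        simp only [Finset.mem_union, Finset.mem_singleton] at hxQ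
        rcases hx with rfl | rfl
        · rcases hxQ with h | h
          · exact hzQ h
          · exact hzc.ne h
        · rcases hxQ with h | h
          · exact haQ h
          · exact hac.ne h
      · refine (good_pair hq0 hq1 (fun _ => ⟨a, by simp, Or.inl ⟨haq0, haq1⟩⟩)).union
          (good_singleton (by simp)) (by simpa using hcQ) ?_
        intro p hp q hq hpq
        rw [Finset.mem_singleton] at hq
        subst hq
        exact ⟨z, by simp, Or.inr ⟨hund p hp, hzc⟩⟩
      · intro t ht x hx hxT hxD htx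
        simp only [Finset.mem_union, Finset.mem_singleton, not_or] at hxT
        rcases Finset.mem_union.1 ht with ht | ht
        · exact ⟨z, by simp, Or.inr ⟨hund t ht, hno t ht x hx hxT.1 htx⟩⟩
        · rw [Finset.mem_singleton] at ht
          subst ht
          by_cases hzx : G.Adj z x
          · by_cases hax : G.Adj a x
            · exfalso
              refine hcl {z, a, t, x} ?_ ?_
              · intro w hw
                simp only [Finset.mem_insert, Finset.mem_singleton] at hw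
                rcases hw with rfl | rfl | rfl | rfl <;> assumption
              · have h1 : G.IsNClique 1 {x} := by simp
                have h2 := h1.insert (a := t) (fun b hb => by
                  rw [Finset.mem_singleton] at hb; rw [hb]; exact htx)
                have h3 := h2.insert (a := a) (fun b hb => by
                  simp only [Finset.mem_insert, Finset.mem_singleton] at hb
                  rcases hb with rfl | rfl <;> assumption)
                exact h3.insert (a := z) (fun b hb => by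
                  simp only [Finset.mem_insert, Finset.mem_singleton] at hb
                  rcases hb with rfl | rfl | rfl <;> assumption)
            · exact ⟨a, by simp, Or.inl ⟨hac, hax⟩⟩
          · exact ⟨z, by simp, Or.inl ⟨hzc, hzx⟩⟩
    have hav : Avoid G 2 U {z, a} (Q ∪ {c}) := by
      intro Q' hQ'U hQ'T hQ'cl hund'
      rw [Finset.disjoint_union_right] at hQ'T
      obtain ⟨y, hyU, hyQ', hyc, q', hq', hyq'⟩ := step1 hk hcl hih hconn hnot hH Q' hQ'U hQ'cl c
      refine ⟨y, hyU, hyQ', ?_, q', hq', hyq'⟩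
      simp only [Finset.mem_union, Finset.mem_singleton, not_or]
      refine ⟨?_, hyc⟩
      intro hyQ
      exact (hund' q' hq').2 z (by simp)
        (hno y hyQ q' (hQ'U hq') (Finset.disjoint_left.1 hQ'T.1 hq') hyq')
    have := value_lt hk hcl hih hH hs hDne hav
    rw [Finset.card_union_of_disjoint (by simpa using hXc), Finset.card_pair hq01,
      Finset.card_union_of_disjoint (by simpa using hcQ), hQ.2, Finset.card_pair hza.ne,
      Finset.card_singleton] at this
    omega

include hk hcl hih hconn hnot hH in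
/-- Step 4: the components of a neighbourhood are cliques of order `k` -/
lemma step4 {z : V} (hz : z ∈ U) {M : Finset V} (hM : M ⊆ U.filter (fun x => G.Adj z x))
    (hMcl : ∀ a ∈ M, ∀ b ∈ U.filter (fun x => G.Adj z x), b ∉ M → ¬ G.Adj a b)
    (hMc : Conn G M) : G.IsNClique k M := by
  by_contra hnc
  have hMU : M ⊆ U := hM.trans (Finset.filter_subset _ _)
  have hMz : ∀ x ∈ M, G.Adj z x := fun x hx => (Finset.mem_filter.1 (hM hx)).2
  obtain ⟨X, gX, cX⟩ := star_strict hMc (noClique_nbr hcl hz hMU hMz) hnc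
  have hs : State G U {z} M X := by
    refine ⟨by simpa using hz, hMU, ?_, gX.mono (by simp), ?_⟩
    · rw [Finset.disjoint_singleton_left]
      intro h
      exact G.irrefl (hMz z h)
    · intro t ht x hx hxM hxz htx
      by_cases hzx : G.Adj z x
      · exact absurd htx (hMcl t ht x (by simp [hx, hzx]) hxM)
      · exact ⟨z, by simp, Or.inl ⟨hMz t ht, hzx⟩⟩
  have hav : Avoid G k U {z} M := by
    intro Q hQU _ hQcl hund
    obtain ⟨q, hq, x, hx, hxQ, hqx, hzx⟩ := step3 hk hcl hih hconn hnot hH hz Q hQU hQcl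
      (fun q hq => (hund q hq).2 z (by simp))
    exact ⟨x, hx, hxQ, fun h => hzx (hMz x h), q, hq, hqx.symm⟩
  have := value_lt hk hcl hih hH hs ⟨z, by simp⟩ hav
  rw [Finset.card_singleton] at this
  omega

include hk hcl hih hconn hnot hH in
/-- Step 5: adjacency is transitive in neighbourhoods -/
lemma step5 {z x y w : V} (hz : z ∈ U) (hx : x ∈ U) (hy : y ∈ U) (hw : w ∈ U)
    (hzx : G.Adj z x) (hzy : G.Adj z y) (hzw : G.Adj z w) (hxy : G.Adj x y) (hyw : G.Adj y w)
    (hxw : x ≠ w) : G.Adj x w := by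
  obtain ⟨M, hM, hxM, hMcl, hMc⟩ := exists_comp (G := G) (U := U.filter (fun x => G.Adj z x))
    (x := x) (by simp [hx, hzx])
  have hyM : y ∈ M := by
    by_contra h
    exact hMcl x hxM y (by simp [hy, hzy]) h hxy
  have hwM : w ∈ M := by
    by_contra h
    exact hMcl y hyM w (by simp [hw, hzw]) h hyw
  exact (step4 hk hcl hih hconn hnot hH hz hM hMcl hMc).1 hxM hwM hxw

include hk hcl hih hconn hnot hH in
lemma step5' {z x : V} (hz : z ∈ U) (hx : x ∈ U) (hzx : G.Adj z x) :
    (U.filter (fun y => G.Adj z y ∧ G.Adj x y)).card + 1 = k := by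
  obtain ⟨M, hM, hxM, hMcl, hMc⟩ := exists_comp (G := G) (U := U.filter (fun x => G.Adj z x))
    (x := x) (by simp [hx, hzx])
  have hcl4 := step4 hk hcl hih hconn hnot hH hz hM hMcl hMc
  have hMeq : insert x (U.filter (fun y => G.Adj z y ∧ G.Adj x y)) = M := by
    ext y
    rw [Finset.mem_insert, Finset.mem_filter]
    constructor
    · rintro (rfl | ⟨hy, hzy, hxy⟩)
      · exact hxM
      · by_contra h
        exact hMcl x hxM y (by simp [hy, hzy]) h hxy
    · intro hy
      by_cases h : y = x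
      · exact Or.inl h
      · have := Finset.mem_filter.1 (hM hy)
        exact Or.inr ⟨this.1, this.2, hcl4.1 hxM hy (Ne.symm h)⟩
  have := hcl4.2
  rw [← hMeq, Finset.card_insert_of_notMem (by simp)] at this
  exact this

include hk hcl hih hconn hnot in
/-- Step 6: the contradiction -/
theorem step6 : ∃ X, Good G ∅ U X ∧ U.card ≤ k * X.card := by
  by_contra hH
  by_cases hP : ∀ v ∈ U, ∀ a ∈ U, ∀ b ∈ U, G.Adj v a → G.Adj v b → a ≠ b → G.Adj a b
  · have hc := clique_of_conn hconn hP
    have hle := card_le_of_noClique hc hcl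
    have hne : U.card ≠ k + 1 := fun e => hnot (e ▸ hc)
    obtain ⟨v, hv⟩ := hconn.1
    exact hH ⟨{v}, good_singleton hv, by rw [Finset.card_singleton]; omega⟩
  push Not at hP
  obtain ⟨a, ha, u, hu, v, hv, hau, hav, huv, hnuv⟩ := hP
  have tr : ∀ {z x y w : V}, z ∈ U → x ∈ U → y ∈ U → w ∈ U → G.Adj z x → G.Adj z y →
      G.Adj z w → G.Adj x y → G.Adj y w → x ≠ w → G.Adj x w :=
    fun hz hx hy hw h1 h2 h3 h4 h5 h6 => step5 hk hcl hih hconn hnot hH hz hx hy hw h1 h2 h3 h4 h5 h6
  set Kb := U.filter (fun x => G.Adj u x ∧ G.Adj a x) with hKb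
  set Kc := U.filter (fun x => G.Adj v x ∧ G.Adj a x) with hKc
  have cb : Kb.card + 1 = k := step5' hk hcl hih hconn hnot hH hu ha hau.symm
  have cc : Kc.card + 1 = k := step5' hk hcl hih hconn hnot hH hv ha hav.symm
  have mb : ∀ {x}, x ∈ Kb ↔ x ∈ U ∧ G.Adj u x ∧ G.Adj a x := by
    intro x; simp [hKb]
  have mc : ∀ {x}, x ∈ Kc ↔ x ∈ U ∧ G.Adj v x ∧ G.Adj a x := by
    intro x; simp [hKc]
  have F1 : ∀ x ∈ Kb, ¬ G.Adj v x := by
    intro x hx hvx
    obtain ⟨hxU, hux, hax⟩ := mb.1 hx
    exact hnuv (tr ha hu hxU hv hau hax hav hux hvx.symm huv)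
  have F2 : ∀ x ∈ Kc, ¬ G.Adj u x := by
    intro x hx hux
    obtain ⟨hxU, hvx, hax⟩ := mc.1 hx
    exact hnuv (tr ha hv hxU hu hav hax hau hvx hux.symm huv.symm).symm
  have hbc : Disjoint Kb Kc := by
    rw [Finset.disjoint_left]
    intro x hx hx'
    exact F1 x hx (mc.1 hx').2.1
  have haK : a ∉ Kb ∪ Kc := by
    rw [Finset.mem_union]
    rintro (h | h)
    · exact G.irrefl (mb.1 h).2.2
    · exact G.irrefl (mc.1 h).2.2
  obtain ⟨b, hb⟩ : Kb.Nonempty := by rw [← Finset.card_pos]; omega
  obtain ⟨c, hc⟩ : Kc.Nonempty := by rw [← Finset.card_pos]; omega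
  obtain ⟨hbU, hub, hab⟩ := mb.1 hb
  obtain ⟨hcU, hvc, hac⟩ := mc.1 hc
  have hbcne : b ≠ c := fun e => F1 b hb (e ▸ hvc)
  have mT : ∀ {x}, x ∈ insert a (Kb ∪ Kc) ↔ x = a ∨ x ∈ Kb ∨ x ∈ Kc := by
    intro x; rw [Finset.mem_insert, Finset.mem_union]
  have hs : State G U {u, v} (insert a (Kb ∪ Kc)) {a, b, c} := by
    refine ⟨?_, ?_, ?_, ⟨?_, ?_⟩, ?_⟩
    · intro x hx
      simp only [Finset.mem_insert, Finset.mem_singleton] at hx
      rcases hx with rfl | rfl <;> assumption
    · intro x hx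
      rcases mT.1 hx with rfl | h | h
      · exact ha
      · exact (mb.1 h).1
      · exact (mc.1 h).1
    · rw [Finset.disjoint_left]
      intro x hx hxT
      simp only [Finset.mem_insert, Finset.mem_singleton] at hx
      rcases hx with rfl | rfl
      · rcases mT.1 hxT with h | h | h
        · exact hau.ne h.symm
        · exact G.irrefl (mb.1 h).2.1
        · exact hnuv ((mc.1 h).2.1).symm
      · rcases mT.1 hxT with h | h | h
        · exact hav.ne h.symm
        · exact hnuv (mb.1 h).2.1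
        · exact G.irrefl (mc.1 h).2.1
    · intro x hx
      simp only [Finset.mem_insert, Finset.mem_singleton] at hx
      rcases hx with rfl | rfl | rfl
      · exact mT.2 (Or.inl rfl)
      · exact mT.2 (Or.inr (Or.inl hb))
      · exact mT.2 (Or.inr (Or.inr hc))
    · have sab : Sep G v a b := Or.inl ⟨hav.symm, F1 b hb⟩
      have sac : Sep G u a c := Or.inl ⟨hau.symm, F2 c hc⟩
      have sbc : Sep G u b c := Or.inl ⟨hub, F2 c hc⟩
      have hu' : u ∈ ({u, v} : Finset V) := by simp
      have hv' : v ∈ ({u, v} : Finset V) := by simp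
      intro x hx y hy hxy
      simp only [Finset.mem_insert, Finset.mem_singleton] at hx hy
      rcases hx with hx | hx | hx <;> rcases hy with hy | hy | hy <;> rw [hx, hy] at hxy ⊢
      · exact absurd hxy G.irrefl
      · exact ⟨v, Or.inl hv', sab⟩
      · exact ⟨u, Or.inl hu', sac⟩
      · exact ⟨v, Or.inl hv', sab.symm⟩
      · exact absurd hxy G.irrefl
      · exact ⟨u, Or.inl hu', sbc⟩
      · exact ⟨u, Or.inl hu', sac.symm⟩
      · exact ⟨u, Or.inl hu', sbc.symm⟩
      · exact absurd hxy G.irrefl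
    · intro t ht x hx hxT hxD htx
      have hxT' : x ≠ a ∧ x ∉ Kb ∧ x ∉ Kc := by
        refine ⟨fun h => hxT (mT.2 (Or.inl h)), fun h => hxT (mT.2 (Or.inr (Or.inl h))),
          fun h => hxT (mT.2 (Or.inr (Or.inr h)))⟩
      have hu' : u ∈ ({u, v} : Finset V) := by simp
      have hv' : v ∈ ({u, v} : Finset V) := by simp
      rcases mT.1 ht with rfl | h | h
      · by_cases hux : G.Adj u x
        · exact absurd (mb.2 ⟨hx, hux, htx⟩) hxT'.2.1
        · exact ⟨u, hu', Or.inl ⟨hau.symm, hux⟩⟩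
      · obtain ⟨htU, hut, hat⟩ := mb.1 h
        by_cases hux : G.Adj u x
        · exfalso
          have : G.Adj a x := tr hu ha htU hx hau.symm hut hux hat htx (Ne.symm hxT'.1)
          exact hxT'.2.1 (mb.2 ⟨hx, hux, this⟩)
        · exact ⟨u, hu', Or.inl ⟨hut, hux⟩⟩
      · obtain ⟨htU, hvt, hat⟩ := mc.1 h
        by_cases hvx : G.Adj v x
        · exfalso
          have : G.Adj a x := tr hv ha htU hx hav.symm hvt hvx hat htx (Ne.symm hxT'.1)
          exact hxT'.2.2 (mc.2 ⟨hx, hvx, this⟩)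
        · exact ⟨v, hv', Or.inl ⟨hvt, hvx⟩⟩
  have hAv : Avoid G k U {u, v} (insert a (Kb ∪ Kc)) := by
    intro Q hQU hQT hQcl hund
    by_contra hno
    push Not at hno
    obtain ⟨y, hyU, hyQ, q, hq, hyq⟩ := exists_nbr hconn hnot Q hQU hQcl
    have hqU := hQU hq
    obtain ⟨y', hy'U, hqy', hyy'⟩ := step2 hk hcl hih hconn hnot hH hqU hyU hyq.symm
    have hy'Q : y' ∉ Q := by
      intro hy'Q
      obtain ⟨q1, hq1, hyq1⟩ := exists_nonadj hcl hQU hQcl hyU
      have h1 : q1 ≠ q := fun e => hyq1 (e ▸ hyq)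
      have h2 : q1 ≠ y' := fun e => hyq1 (e ▸ hyy')
      have h3 : q1 ≠ y := fun e => hyQ (e ▸ hq1)
      exact hyq1 (tr hqU (hQU hq1) hy'U hyU (hQcl.1 hq hq1 h1.symm) hqy' hyq.symm
        (hQcl.1 hq1 hy'Q h2) hyy'.symm h3).symm
    have hyT : y ∈ insert a (Kb ∪ Kc) := by
      by_contra h
      exact hno y hyU hyQ h q hq hyq
    have hy'T : y' ∈ insert a (Kb ∪ Kc) := by
      by_contra h
      exact hno y' hy'U hy'Q h q hq hqy'.symm
    have hq' := hund q hq
    have hqu : ¬ G.Adj u q := hq'.2 u (by simp)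
    have hqv : ¬ G.Adj v q := hq'.2 v (by simp)
    have huq : u ≠ q := by
      intro e; exact hq'.1 (by simp [← e])
    have hvq : v ≠ q := by
      intro e; exact hq'.1 (by simp [← e])
    -- both adjacent to `u`
    have cu : G.Adj u y → G.Adj u y' → False := fun h h' =>
      hqu (tr hyU hu hy'U hqU h.symm hyy' hyq h' hqy'.symm huq)
    have cv : G.Adj v y → G.Adj v y' → False := fun h h' =>
      hqv (tr hyU hv hy'U hqU h.symm hyy' hyq h' hqy'.symm hvq)
    rcases mT.1 hyT with h | h | h <;> rcases mT.1 hy'T with h' | h' | h'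
    · rw [h, h'] at hyy'
      exact G.irrefl hyy'
    · exact cu (h ▸ hau.symm) (mb.1 h').2.1
    · exact cv (h ▸ hav.symm) (mc.1 h').2.1
    · exact cu (mb.1 h).2.1 (h' ▸ hau.symm)
    · exact cu (mb.1 h).2.1 (mb.1 h').2.1
    · have huy' : u ≠ y' := fun e => hnuv (e ▸ ((mc.1 h').2.1).symm)
      exact F2 y' h' (tr hyU hu ha hy'U (mb.1 h).2.1.symm (mb.1 h).2.2.symm hyy'
        hau.symm (mc.1 h').2.2 huy')
    · exact cv (mc.1 h).2.1 (h' ▸ hav.symm)
    · have huy : u ≠ y := fun e => hnuv (e ▸ ((mc.1 h).2.1).symm)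
      exact F2 y h (tr hy'U hu ha hyU (mb.1 h').2.1.symm (mb.1 h').2.2.symm hyy'.symm
        hau.symm (mc.1 h).2.2 huy)
    · exact cv (mc.1 h).2.1 (mc.1 h').2.1
  have := value_lt hk hcl hih hH hs ⟨u, by simp⟩ hAv
  rw [Finset.card_pair huv, Finset.card_insert_of_notMem haK, Finset.card_union_of_disjoint hbc]
    at this
  have h3 : ({a, b, c} : Finset V).card = 3 := by
    rw [Finset.card_eq_three]
    exact ⟨a, b, c, hab.ne, hac.ne, hbcne, rfl⟩
  rw [h3] at this
  omega

end

/-- the main bound -/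
theorem main {k : ℕ} (hk : 2 ≤ k) (n : ℕ) : ∀ U : Finset V, U.card = n → Conn G U →
    NoClique G (k + 2) U → ¬ G.IsNClique (k + 1) U →
    ∃ X, Good G ∅ U X ∧ U.card ≤ k * X.card := by
  induction n using Nat.strong_induction_on with
  | _ n ih =>
    intro U hn hconn hcl hnot
    refine step6 hk hcl ?_ hconn hnot
    intro M hMU hne hMc hMn
    exact ih M.card (by
      rw [← hn]
      exact Finset.card_lt_card (Finset.ssubset_iff_subset_ne.2 ⟨hMU, hne⟩)) M rfl hMc
      (hcl.mono hMU) hMn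

end Q32.LMD
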