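import Pool.Agent.Q32.LMD.Core

/-!
Configurations `(D, T, X)` and the process which extends them.
-/

set_option autoImplicit false

namespace Q32.LMD

open Finset Classical

variable {V : Type*} {G : SimpleGraph V}

/-- `q` is not in the closed neighbourhood of `D` -/
def Undom (G : SimpleGraph V) (D : Finset V) (q : V) : Prop := q ∉ D ∧ ∀ d ∈ D, ¬ G.Adj d q

/-- A configuration. -/
structure State (G : SimpleGraph V) (U D T X : Finset V) : Prop where
  hD : D ⊆ U
  hT : T ⊆ U
  disj : Disjoint D T
  good : Good G D T X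
  closed : ∀ t ∈ T, ∀ x ∈ U, x ∉ T → x ∉ D → G.Adj t x → ∃ d ∈ D, Sep G d t x

/-- cliques of size `k + 1` outside `T` and not dominated by `D` have a neighbour outside `T` -/
def Avoid (G : SimpleGraph V) (k : ℕ) (U D T : Finset V) : Prop :=
  ∀ Q, Q ⊆ U → Disjoint Q T → G.IsNClique (k + 1) Q → (∀ q ∈ Q, Undom G D q) →
    ∃ y ∈ U, y ∉ Q ∧ y ∉ T ∧ ∃ q ∈ Q, G.Adj y q

/-- induction hypothesis: smaller connected sets satisfy the bound -/
def IH (G : SimpleGraph V) (k : ℕ) (U : Finset V) : Prop :=
  ∀ M, M ⊆ U → M ≠ U → Conn G M → ¬ G.IsNClique (k + 1) M →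
    ∃ X, Good G ∅ M X ∧ M.card ≤ k * X.card

/-- no undominated isolated clique outside `T` -/
def NoBad (G : SimpleGraph V) (k : ℕ) (U D T : Finset V) : Prop :=
  ∀ Q, Q ⊆ U → Disjoint Q T → G.IsNClique (k + 1) Q → (∀ q ∈ Q, Undom G D q) →
    ¬ (∀ q ∈ Q, ∀ x ∈ U, x ∉ Q → G.Adj q x → ∃ d ∈ D, G.Adj d x)

lemma rest_aux {k : ℕ} {U D T : Finset V} (hcl : NoClique G (k + 2) U) (hih : IH G k U)
    (hDU : D ⊆ U) (hDne : D.Nonempty) (hbad : NoBad G k U D T) (n : ℕ) :
    ∀ Z : Finset V, Z.card = n → Z ⊆ U → Disjoint Z T → Disjoint Z D →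
      (∀ z ∈ Z, ∀ x ∈ U, x ∉ Z → x ∉ D → G.Adj z x → ∃ d ∈ D, Sep G d z x) →
      ∃ X, Good G D Z X ∧ Z.card ≤ k * X.card := by
  induction n using Nat.strong_induction_on with
  | _ n ih =>
    intro Z hn hZU hZT hZD hZcl
    rcases Z.eq_empty_or_nonempty with rfl | ⟨z, hz⟩
    · exact ⟨∅, good_empty _, by simp⟩
    -- combine a part `P` with the rest
    have comb : ∀ P X, P ⊆ Z → P.Nonempty → Good G ∅ P X → P.card ≤ k * X.card →
        (∀ p ∈ P, ∀ q ∈ Z, q ∉ P → G.Adj p q → ∃ d ∈ D, Sep G d p q) →
        ∃ X, Good G D Z X ∧ Z.card ≤ k * X.card := by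
      intro P X hP hPne hX hcard hsep
      have hlt : (Z \ P).card < n := by
        rw [← hn]
        apply Finset.card_lt_card
        rw [Finset.ssubset_iff_subset_ne]
        refine ⟨Finset.sdiff_subset, fun e => ?_⟩
        obtain ⟨p, hp⟩ := hPne
        have : p ∈ Z \ P := by rw [e]; exact hP hp
        simp [hp] at this
      obtain ⟨Y, gY, cY⟩ := ih _ hlt (Z \ P) rfl (Finset.sdiff_subset.trans hZU)
        (Finset.disjoint_of_subset_left Finset.sdiff_subset hZT)
        (Finset.disjoint_of_subset_left Finset.sdiff_subset hZD) (by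
          intro a ha x hx hxZ hxD hax
          rw [Finset.mem_sdiff] at ha
          by_cases hxz : x ∈ Z
          · have hxP : x ∈ P := by
              by_contra h
              exact hxZ (by simp [hxz, h])
            obtain ⟨d, hd, hs⟩ := hsep x hxP a ha.1 ha.2 hax.symm
            exact ⟨d, hd, hs.symm⟩
          · exact hZcl a ha.1 x hx hxz hxD hax)
      have hdisj : Disjoint P (Z \ P) := Finset.disjoint_sdiff
      refine ⟨X ∪ Y, ?_, ?_⟩
      · have := (hX.mono (Finset.empty_subset D)).union gY hdisj (by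
          intro p hp q hq hpq
          rw [Finset.mem_sdiff] at hq
          exact hsep p hp q hq.1 hq.2 hpq)
        rwa [Finset.union_sdiff_of_subset hP] at this
      · rw [Finset.card_union_of_disjoint (Finset.disjoint_of_subset_left hX.1
          (Finset.disjoint_of_subset_right gY.1 hdisj))]
        have : Z.card = P.card + (Z \ P).card := by
          rw [← Finset.card_union_of_disjoint hdisj, Finset.union_sdiff_of_subset hP]
        rw [this, Nat.mul_add]
        exact Nat.add_le_add hcard cY
    by_cases hdom : ∃ d ∈ D, G.Adj d z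
    · -- dominated: a whole trace class
      obtain ⟨d0, hd0, hd0z⟩ := hdom
      obtain ⟨X, gX, cX⟩ := star _ k (Z.filter (fun x => ∀ d ∈ D, (G.Adj d x ↔ G.Adj d z))) rfl
        (noClique_nbr (hcl) (hDU hd0) ((Finset.filter_subset _ _).trans hZU)
          (fun x hx => ((Finset.mem_filter.1 hx).2 d0 hd0).2 hd0z))
      refine comb _ X (Finset.filter_subset _ _) ⟨z, by simp [hz]⟩ gX cX ?_
      intro p hp q hq hqP hpq
      rw [Finset.mem_filter] at hp
      have : ¬ ∀ d ∈ D, (G.Adj d q ↔ G.Adj d z) := fun h => hqP (Finset.mem_filter.2 ⟨hq, h⟩)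
      push Not at this
      obtain ⟨d, hd, hdq⟩ := this
      refine ⟨d, hd, ?_⟩
      have hpz := hp.2 d hd
      rcases hdq with ⟨h1, h2⟩ | ⟨h1, h2⟩
      · exact Or.inr ⟨fun h => h2 (hpz.1 h), h1⟩
      · exact Or.inl ⟨hpz.2 h2, h1⟩
    · -- undominated: a component
      have hz0 : z ∈ Z.filter (fun x => Undom G D x) := by
        rw [Finset.mem_filter]
        refine ⟨hz, Finset.disjoint_left.1 hZD hz, ?_⟩
        push Not at hdom
        exact hdom
      obtain ⟨M, hM, hzM, hMcl, hMconn⟩ := exists_comp (G := G) hz0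
      have hMZ : M ⊆ Z := hM.trans (Finset.filter_subset _ _)
      have hMund : ∀ q ∈ M, Undom G D q := fun q hq => (Finset.mem_filter.1 (hM hq)).2
      have hout : ∀ q ∈ M, ∀ x ∈ U, x ∉ M → G.Adj q x → ∃ d ∈ D, G.Adj d x := by
        intro q hq x hx hxM hqx
        have hxD : x ∉ D := by
          intro hxD
          exact (hMund q hq).2 x hxD hqx.symm
        by_cases hxZ : x ∈ Z
        · by_contra hno
          push Not at hno
          exact hMcl q hq x (by rw [Finset.mem_filter]; exact ⟨hxZ, hxD, hno⟩) hxM hqx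
        · obtain ⟨d, hd, hs⟩ := hZcl q (hMZ hq) x hx hxZ hxD hqx
          refine ⟨d, hd, ?_⟩
          rcases hs with hs | hs
          · exact absurd hs.1 ((hMund q hq).2 d hd)
          · exact hs.2
      have hnotcl : ¬ G.IsNClique (k + 1) M := fun h =>
        hbad M (hMZ.trans hZU) (Finset.disjoint_of_subset_left hMZ hZT) h hMund hout
      have hMne : M ≠ U := by
        rintro rfl
        obtain ⟨d, hd⟩ := hDne
        exact Finset.disjoint_left.1 hZD (hMZ (hDU hd)) hd
      obtain ⟨X, gX, cX⟩ := hih M (hMZ.trans hZU) hMne hMconn hnotcl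
      refine comb M X hMZ ⟨z, hzM⟩ gX cX ?_
      intro p hp q hq hqM hpq
      obtain ⟨d, hd, hdq⟩ := hout p hp q (hZU hq) hqM hpq
      exact ⟨d, hd, Or.inr ⟨(hMund p hp).2 d hd, hdq⟩⟩

/-- assembling a good set from a configuration -/
lemma assembly {k : ℕ} {U D T X : Finset V} (hcl : NoClique G (k + 2) U) (hih : IH G k U)
    (hs : State G U D T X) (hDne : D.Nonempty) (hbad : NoBad G k U D T) :
    ∃ Y, Good G ∅ U Y ∧ k * X.card + U.card ≤ k * Y.card + D.card + T.card := by
  set Z := U \ (T ∪ D) with hZ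
  have hZU : Z ⊆ U := Finset.sdiff_subset
  have hZT : Disjoint Z T := by
    rw [Finset.disjoint_left]; intro x hx hxT
    simp [hZ, hxT] at hx
  have hZD : Disjoint Z D := by
    rw [Finset.disjoint_left]; intro x hx hxD
    simp [hZ, hxD] at hx
  obtain ⟨Y, gY, cY⟩ := rest_aux hcl hih hs.hD hDne hbad _ Z rfl hZU hZT hZD (by
    intro z hz x hx hxZ hxD hzx
    have hxT : x ∈ T := by
      by_contra h
      exact hxZ (by simp [hZ, hx, h, hxD])
    obtain ⟨d, hd, h⟩ := hs.closed x hxT z (hZU hz) (fun h => Finset.disjoint_left.1 hZT hz h)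
      (fun h => Finset.disjoint_left.1 hZD hz h) hzx.symm
    exact ⟨d, hd, h.symm⟩)
  have hTZ : Disjoint T Z := hZT.symm
  have g1 := hs.good.union gY hTZ (by
    intro p hp q hq hpq
    exact hs.closed p hp q (hZU hq) (fun h => Finset.disjoint_left.1 hZT hq h)
      (fun h => Finset.disjoint_left.1 hZD hq h) hpq)
  have hd : Disjoint D (T ∪ Z) := by
    rw [Finset.disjoint_union_right]
    exact ⟨hs.disj, hZD.symm⟩
  have g2 := g1.absorb hd
  have hU : D ∪ (T ∪ Z) = U := by
    ext x
    simp only [Finset.mem_union, hZ, Finset.mem_sdiff, not_or]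
    constructor
    · rintro (h | h | h)
      · exact hs.hD h
      · exact hs.hT h
      · exact h.1
    · intro h
      by_cases h1 : x ∈ D
      · exact Or.inl h1
      · by_cases h2 : x ∈ T
        · exact Or.inr (Or.inl h2)
        · exact Or.inr (Or.inr ⟨h, h2, h1⟩)
  rw [hU] at g2
  refine ⟨_, g2, ?_⟩
  have hUc : U.card = D.card + (T.card + Z.card) := by
    rw [← Finset.card_union_of_disjoint hTZ, ← Finset.card_union_of_disjoint hd, hU]
  rw [Finset.card_union_of_disjoint (Finset.disjoint_of_subset_left hs.good.1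
      (Finset.disjoint_of_subset_right gY.1 hTZ)), hUc, Nat.mul_add]
  omega

/-- the process -/
theorem process {k : ℕ} (hk : 2 ≤ k) {U : Finset V} (hcl : NoClique G (k + 2) U)
    (hih : IH G k U) (n : ℕ) :
    ∀ D T X : Finset V, U.card - D.card = n → State G U D T X → D.Nonempty → Avoid G k U D T →
      ∃ Y, Good G ∅ U Y ∧ k * X.card + U.card ≤ k * Y.card + D.card + T.card := by
  induction n using Nat.strong_induction_on with
  | _ n ih =>
    intro D T X hn hs hDne hav
    by_cases hbad : NoBad G k U D T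
    · exact assembly hcl hih hs hDne hbad
    · unfold NoBad at hbad
      push Not at hbad
      obtain ⟨Q, hQU, hQT, hQcl, hQund, hQout⟩ := hbad
      obtain ⟨y, hyU, hyQ, hyT, q0, hq0, hyq0⟩ := hav Q hQU hQT hQcl hQund
      have hyD : y ∉ D := fun h => (hQund q0 hq0).2 y h hyq0
      have hex : ∃ q1 ∈ Q, ¬ G.Adj y q1 := by
        by_contra hno
        push Not at hno
        refine hcl (insert y Q) ?_ (hQcl.insert hno)
        intro x hx
        rcases Finset.mem_insert.1 hx with h | h
        · rw [h]; exact hyU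
        · exact hQU h
      obtain ⟨q1, hq1, hyq1⟩ := hex
      have hq01 : q0 ≠ q1 := fun e => hyq1 (e ▸ hyq0)
      have hDQ : Disjoint D Q := by
        rw [Finset.disjoint_left]
        intro x hx hxQ
        exact (hQund x hxQ).1 hx
      have hs' : State G U (insert y D) (T ∪ Q) (X ∪ {q0, q1}) := by
        refine ⟨?_, Finset.union_subset hs.hT hQU, ?_, ?_, ?_⟩
        · intro x hx
          rcases Finset.mem_insert.1 hx with h | h
          · rw [h]; exact hyU
          · exact hs.hD h
        · rw [Finset.disjoint_insert_left, Finset.disjoint_union_right]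
          refine ⟨?_, hs.disj, hDQ⟩
          rw [Finset.mem_union]
          rintro (h | h)
          · exact hyT h
          · exact hyQ h
        · refine (hs.good.mono (Finset.subset_insert _ _)).union
            (good_pair hq0 hq1 (fun _ => ⟨y, by simp, Or.inl ⟨hyq0, hyq1⟩⟩)) hQT.symm ?_
          intro p hp q hq hpq
          obtain ⟨d, hd, h⟩ := hs.closed p hp q (hQU hq)
            (fun h => Finset.disjoint_left.1 hQT hq h)
            (fun h => Finset.disjoint_left.1 hDQ h hq) hpq
          exact ⟨d, Finset.mem_insert_of_mem hd, h⟩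
        · intro t ht x hx hxT hxD htx
          rw [Finset.mem_union, not_or] at hxT
          rw [Finset.mem_insert, not_or] at hxD
          rcases Finset.mem_union.1 ht with ht | ht
          · obtain ⟨d, hd, h⟩ := hs.closed t ht x hx hxT.1 hxD.2 htx
            exact ⟨d, Finset.mem_insert_of_mem hd, h⟩
          · obtain ⟨d, hd, h⟩ := hQout t ht x hx hxT.2 htx
            exact ⟨d, Finset.mem_insert_of_mem hd, Or.inr ⟨(hQund t ht).2 d hd, h⟩⟩
      have hav' : Avoid G k U (insert y D) (T ∪ Q) := by
        intro Q' hQ'U hQ'T hQ'cl hQ'und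
        rw [Finset.disjoint_union_right] at hQ'T
        obtain ⟨y', hy'U, hy'Q', hy'T, q', hq', hyq'⟩ := hav Q' hQ'U hQ'T.1 hQ'cl
          (fun q hq => ⟨fun h => (hQ'und q hq).1 (Finset.mem_insert_of_mem h),
            fun d hd => (hQ'und q hq).2 d (Finset.mem_insert_of_mem hd)⟩)
        refine ⟨y', hy'U, hy'Q', ?_, q', hq', hyq'⟩
        rw [Finset.mem_union]
        rintro (h | h)
        · exact hy'T h
        · obtain ⟨d, hd, hdq⟩ := hQout y' h q' (hQ'U hq')
            (fun h' => Finset.disjoint_left.1 hQ'T.2 hq' h') hyq'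
          exact (hQ'und q' hq').2 d (Finset.mem_insert_of_mem hd) hdq
      have hDU : (insert y D).card ≤ U.card := Finset.card_le_card hs'.hD
      rw [Finset.card_insert_of_notMem hyD] at hDU
      obtain ⟨Y, gY, cY⟩ := ih (U.card - (insert y D).card)
        (by rw [Finset.card_insert_of_notMem hyD]; omega) _ _ _ rfl hs'
        ⟨y, by simp⟩ hav'
      refine ⟨Y, gY, ?_⟩
      have hXQ : Disjoint X {q0, q1} := by
        rw [Finset.disjoint_left]
        intro x hx hxq
        simp only [Finset.mem_insert, Finset.mem_singleton] at hxq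
        rcases hxq with rfl | rfl
        · exact Finset.disjoint_left.1 hQT hq0 (hs.good.1 hx)
        · exact Finset.disjoint_left.1 hQT hq1 (hs.good.1 hx)
      rw [Finset.card_union_of_disjoint hXQ, Finset.card_pair hq01,
        Finset.card_insert_of_notMem hyD, Finset.card_union_of_disjoint hQT.symm, hQcl.2,
        Nat.mul_add] at cY
      omega

end Q32.LMD
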